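import Pool.Agent.H71.CQ.Basic

/-!
# CLA: all properties stay infinite
-/

set_option autoImplicit false

open Set

namespace Pool.Agent.H13.CQ

open Pool.Agent.H71.CQ

/-- transport of a property along an isomorphism of components -/
theorem hs_of_pi {L : Type} {N : NF L} {e0 e e' : ℕ → ℕ → L}
    {g : {x // Wp N e0 x} ≃ {x // Wp N e x}} {g' : {x // Wp N e0 x} ≃ {x // Wp N e' x}}
    {x x' : ℕ} (h : PI N e e' (g.symm.trans g') x x') (θ : Option {x // Wp N e0 x} × L)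
    (hθ : Hs N g' x' θ) : Hs N g x θ := by
  obtain ⟨f, h1, h2⟩ := h
  obtain ⟨o, l⟩ := θ
  cases o with
  | none =>
    obtain ⟨y, hy, hl⟩ := hθ
    refine ⟨(f.symm ⟨y, hy⟩ : {y // Cm N e x y}), (f.symm ⟨y, hy⟩).2, ?_⟩
    rw [← h1, f.apply_symm_apply]
    exact hl
  | some k =>
    obtain ⟨y, hy, hl⟩ := hθ
    refine ⟨(f.symm ⟨y, hy⟩ : {y // Cm N e x y}), (f.symm ⟨y, hy⟩).2, ?_⟩
    rw [← h2, f.apply_symm_apply]
    have h3 : (g.symm.trans g') (g k) = g' k := by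
      simp
    rw [h3]
    exact hl

/-- CLA. All properties stay infinite: the components which have a property of some component. -/
theorem pf_CLA : T_CLA := by
  intro L N e0 e g x hR S j y hy θ hθ
  by_cases hc : ∃ m, PI N (e m) (e j) ((g m).symm.trans (g j)) (x m) y
  · obtain ⟨m, hm⟩ := hc
    have h1 : Hs N (g m) (x m) θ := hs_of_pi hm θ hθ
    have h2 := hR.rob m θ h1
    have h3 : (fun m' : ℕ => ((m', 0) : ℕ × ℕ)) '' {m | Hs N (g m) (x m) θ} ⊆
        {v : ℕ × ℕ | ∃ (z : ℕ) (hz : ¬ Wp N (e v.1) z), Hs N (g v.1) z θ ∧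
        (Sum.inr ⟨v, z, hz⟩ : SV N e0 (fun j : ℕ × ℕ => e j.1)) ∈ As N e0 e g x S} := by
      rintro _ ⟨m', hm', rfl⟩
      refine ⟨x m', hR.hx m', hm', ?_⟩
      intro m'' _ hPI
      have hPI' : PI N (e m'') (e m') ((g m'').symm.trans (g m')) (x m'') (x m') := hPI
      have hEq : m'' = m' := by
        by_contra hne
        exact hR.ne m'' m' hne ⟨_, (hR.w m'').symm.trans (hR.w m'), hPI'⟩
      subst hEq
      exact ⟨rfl, cm_refl _⟩
    refine Set.Infinite.mono h3 (h2.image ?_)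
    intro a _ b _ hab
    exact congrArg Prod.fst hab
  · have h3 : Set.range (fun i : ℕ => ((j, i) : ℕ × ℕ)) ⊆
        {v : ℕ × ℕ | ∃ (z : ℕ) (hz : ¬ Wp N (e v.1) z), Hs N (g v.1) z θ ∧
        (Sum.inr ⟨v, z, hz⟩ : SV N e0 (fun j : ℕ × ℕ => e j.1)) ∈ As N e0 e g x S} := by
      rintro _ ⟨i, rfl⟩
      refine ⟨y, hy, hθ, ?_⟩
      intro m'' _ hPI
      exact absurd ⟨m'', hPI⟩ hc
    refine Set.Infinite.mono h3 (Set.infinite_range_of_injective ?_)
    intro a b hab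
    exact congrArg Prod.snd hab

end Pool.Agent.H13.CQ
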